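import Mathlib

/-!
# Project r2: (MP_70a088_an, rational maps), POS lemma (helper34; idea helper76, helper33)

A family of iterates of `f` which are near translations on a disc with displacements that span the plane positively: then arbitrarily high iterates of `f` are near the identity on the disc of a quarter of the radius.
-/

set_option autoImplicit false

open Complex Metric Set Filter Topology

noncomputable section

namespace R2

/-- POS: positively spanning returns. -/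
def POS_stmt : Prop := ∀ c : ℝ, 0 < c → ∃ θ : ℝ, 0 < θ ∧ ∀ (f : ℂ → ℂ) (y : ℂ) (r : ℝ), 0 < r → ∀ (n : ℕ) (m : Fin n → ℕ) (v : Fin n → ℂ),
  (∀ k, 1 ≤ m k) → (∀ k, v k ≠ 0 ∧ ‖v k‖ ≤ θ * r) → (∀ k, DifferentiableOn ℂ (f^[m k]) (ball y r)) →
  (∀ k, ∀ z ∈ ball y r, ‖f^[m k] z - z - v k‖ ≤ θ * ‖v k‖) →
  (∀ e : ℂ, ‖e‖ = 1 → ∃ k, (v k * (starRingEnd ℂ) e).re ≤ -(c * ‖v k‖)) →
  ∀ N : ℕ, ∃ M ≥ N, DifferentiableOn ℂ (f^[M]) (ball y (r / 4)) ∧ ∀ z ∈ ball y (r / 4), ‖f^[M] z - z‖ ≤ r / 8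

/-- one step inwards. -/
theorem POS_in (c θ s : ℝ) (hc : 0 < c) (hc2 : c ≤ 1 / 2) (hθ : 4 * θ ≤ c) (w v u : ℂ) (hs : ‖w‖ = s) (hs0 : 0 < s)
    (hv : ‖v‖ ≤ c * s) (hre : (v * (starRingEnd ℂ) w).re ≤ -(c * ‖v‖ * s)) (hu : ‖u - w - v‖ ≤ θ * ‖v‖) :
    ‖u‖ ≤ s - c / 4 * ‖v‖ := by
  have hv0 : 0 ≤ ‖v‖ := norm_nonneg v
  have h1 : ‖w + v‖ ^ 2 = ‖w‖ ^ 2 + ‖v‖ ^ 2 + 2 * (v * (starRingEnd ℂ) w).re := by
    rw [← Complex.normSq_eq_norm_sq, ← Complex.normSq_eq_norm_sq, ← Complex.normSq_eq_norm_sq, Complex.normSq_add]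
    have : (w * (starRingEnd ℂ) v).re = (v * (starRingEnd ℂ) w).re := by
      simp only [Complex.mul_re, Complex.conj_re, Complex.conj_im]; ring
    rw [this]
  have h2 : ‖w + v‖ ≤ s - c / 2 * ‖v‖ := by
    have h3 : 0 ≤ s - c / 2 * ‖v‖ := by nlinarith
    have h4 : ‖w + v‖ ^ 2 ≤ (s - c / 2 * ‖v‖) ^ 2 := by
      rw [h1, hs]
      nlinarith [mul_nonneg hv0 hv0, mul_nonneg hv0 hs0.le, sq_nonneg (c * ‖v‖)]
    exact (sq_le_sq₀ (norm_nonneg _) h3).1 h4
  calc ‖u‖ = ‖(w + v) + (u - w - v)‖ := by congr 1; ring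
    _ ≤ ‖w + v‖ + ‖u - w - v‖ := norm_add_le _ _
    _ ≤ (s - c / 2 * ‖v‖) + θ * ‖v‖ := add_le_add h2 hu
    _ ≤ s - c / 4 * ‖v‖ := by nlinarith

/-- the data. -/
structure POS_D (c θ : ℝ) (f : ℂ → ℂ) (y : ℂ) (r : ℝ) (n : ℕ) (m : Fin n → ℕ) (v : Fin n → ℂ) : Prop where
  c0 : 0 < c
  c1 : c ≤ 1 / 2
  t0 : 0 < θ
  t1 : 64 * θ ≤ c
  r0 : 0 < r
  m1 : ∀ k, 1 ≤ m k
  v0 : ∀ k, v k ≠ 0
  v1 : ∀ k, ‖v k‖ ≤ θ * r
  dif : ∀ k, DifferentiableOn ℂ (f^[m k]) (ball y r)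
  ne : ∀ k, ∀ z ∈ ball y r, ‖f^[m k] z - z - v k‖ ≤ θ * ‖v k‖
  dir : ∀ e : ℂ, ‖e‖ = 1 → ∃ k, (v k * (starRingEnd ℂ) e).re ≤ -(c * ‖v k‖)

variable {c θ : ℝ} {f : ℂ → ℂ} {y : ℂ} {r : ℝ} {n : ℕ} {m : Fin n → ℕ} {v : Fin n → ℂ}

theorem POS_step (h : POS_D c θ f y r n m v) (z : ℂ) (hz : z ∈ ball y r) (hs : θ * r / c ≤ ‖z - y‖) :
    ∃ k, ‖f^[m k] z - y‖ ≤ ‖z - y‖ - c / 4 * ‖v k‖ := by
  have hr := h.r0
  have hc := h.c0
  have ht := h.t0
  have hpos : 0 < θ * r / c := by positivity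
  have hs0 : 0 < ‖z - y‖ := lt_of_lt_of_le hpos hs
  have hsc : θ * r ≤ c * ‖z - y‖ := by
    rw [div_le_iff₀ hc] at hs; linarith
  obtain ⟨k, hk⟩ := h.dir ((z - y) / (‖z - y‖ : ℂ)) (by
    rw [norm_div, Complex.norm_real, norm_norm, div_self hs0.ne'])
  refine ⟨k, ?_⟩
  have hk2 : (v k * (starRingEnd ℂ) (z - y)).re ≤ -(c * ‖v k‖ * ‖z - y‖) := by
    have e1 : v k * (starRingEnd ℂ) ((z - y) / (‖z - y‖ : ℂ)) = (v k * (starRingEnd ℂ) (z - y)) / ((‖z - y‖ : ℝ) : ℂ) := by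
      rw [map_div₀, Complex.conj_ofReal]; ring
    rw [e1, Complex.div_ofReal_re, div_le_iff₀ hs0] at hk
    linarith
  have := POS_in c θ ‖z - y‖ hc h.c1 (by linarith [h.t1]) (z - y) (v k) (f^[m k] z - y) rfl hs0
    ((h.v1 k).trans hsc) hk2 (by
      have := h.ne k z hz
      have e2 : f^[m k] z - y - (z - y) - v k = f^[m k] z - z - v k := by ring
      rw [e2]; exact this)
  exact this

theorem POS_pos (h : POS_D c θ f y r n m v) : ∃ a : ℝ, 0 < a ∧ ∀ k, a ≤ ‖v k‖ := by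
  obtain ⟨k0, -⟩ := h.dir 1 (by simp)
  have hne : (Finset.univ : Finset (Fin n)).Nonempty := ⟨k0, Finset.mem_univ _⟩
  obtain ⟨k1, -, hk1⟩ := Finset.exists_min_image Finset.univ (fun k => ‖v k‖) hne
  exact ⟨‖v k1‖, norm_pos_iff.2 (h.v0 k1), fun k => hk1 k (Finset.mem_univ _)⟩

theorem POS_comm (M j : ℕ) (z : ℂ) : f^[M] (f^[j] z) = f^[j] (f^[M] z) := by
  rw [← Function.iterate_add_apply, ← Function.iterate_add_apply, add_comm]

/-- the walk inwards: the displacement changes little. -/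
theorem POS_walk (h : POS_D c θ f y r n m v) (M : ℕ) (hF : ∀ z ∈ ball y (r / 4), ‖f^[M] z - z‖ ≤ r / 4) (a : ℝ) (ha : 0 < a)
    (hav : ∀ k, a ≤ ‖v k‖) : ∀ K : ℕ, ∀ z ∈ ball y (r / 4), ‖z - y‖ ≤ θ * r / c + K * (c / 4 * a) →
    ∃ z' ∈ ball y (r / 4), ‖z' - y‖ ≤ θ * r / c ∧
      ‖(f^[M] z' - z') - (f^[M] z - z)‖ ≤ 8 * θ / c * (‖z - y‖ - ‖z' - y‖) := by
  have hr := h.r0
  have hc := h.c0
  have ht := h.t0
  intro K
  induction K with
  | zero =>
    intro z hz hzy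
    refine ⟨z, hz, by simpa using hzy, by simp⟩
  | succ K ih =>
    intro z hz hzy
    by_cases hs : θ * r / c ≤ ‖z - y‖
    · have hzr : z ∈ ball y r := ball_subset_ball (by linarith) hz
      obtain ⟨k, hk⟩ := POS_step h z hzr hs
      have hvk : a ≤ ‖v k‖ := hav k
      have hlt : ‖f^[m k] z - y‖ ≤ ‖z - y‖ - c / 4 * a := by
        have : c / 4 * a ≤ c / 4 * ‖v k‖ := by
          apply mul_le_mul_of_nonneg_left hvk; positivity
        linarith
      have hz1 : f^[m k] z ∈ ball y (r / 4) := by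
        rw [mem_ball, dist_eq_norm] at hz ⊢
        have : 0 < c / 4 * a := by positivity
        linarith
      obtain ⟨z', hz', hzy', hH⟩ := ih (f^[m k] z) hz1 (by push_cast at hzy; linarith)
      refine ⟨z', hz', hzy', ?_⟩
      have hFz : f^[M] z ∈ ball y r := by
        have h1 := hF z hz
        rw [mem_ball, dist_eq_norm] at hz ⊢
        calc ‖f^[M] z - y‖ = ‖(f^[M] z - z) + (z - y)‖ := by congr 1; ring
          _ ≤ ‖f^[M] z - z‖ + ‖z - y‖ := norm_add_le _ _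
          _ < r := by linarith
      have h2 := h.ne k z hzr
      have h3 := h.ne k (f^[M] z) hFz
      have h4 : ‖(f^[M] (f^[m k] z) - f^[m k] z) - (f^[M] z - z)‖ ≤ 2 * θ * ‖v k‖ := by
        rw [POS_comm]
        calc ‖(f^[m k] (f^[M] z) - f^[m k] z) - (f^[M] z - z)‖
            = ‖(f^[m k] (f^[M] z) - f^[M] z - v k) - (f^[m k] z - z - v k)‖ := by congr 1; ring
          _ ≤ ‖f^[m k] (f^[M] z) - f^[M] z - v k‖ + ‖f^[m k] z - z - v k‖ := norm_sub_le _ _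
          _ ≤ 2 * θ * ‖v k‖ := by linarith
      have h5 : 2 * θ * ‖v k‖ ≤ 8 * θ / c * (‖z - y‖ - ‖f^[m k] z - y‖) := by
        have h6 : c / 4 * ‖v k‖ ≤ ‖z - y‖ - ‖f^[m k] z - y‖ := by linarith
        calc 2 * θ * ‖v k‖ = 8 * θ / c * (c / 4 * ‖v k‖) := by field_simp; ring
          _ ≤ _ := mul_le_mul_of_nonneg_left h6 (by positivity)
      calc ‖(f^[M] z' - z') - (f^[M] z - z)‖
          = ‖((f^[M] z' - z') - (f^[M] (f^[m k] z) - f^[m k] z)) + ((f^[M] (f^[m k] z) - f^[m k] z) - (f^[M] z - z))‖ := by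
            congr 1; ring
        _ ≤ ‖(f^[M] z' - z') - (f^[M] (f^[m k] z) - f^[m k] z)‖ + ‖(f^[M] (f^[m k] z) - f^[m k] z) - (f^[M] z - z)‖ :=
            norm_add_le _ _
        _ ≤ 8 * θ / c * (‖f^[m k] z - y‖ - ‖z' - y‖) + 8 * θ / c * (‖z - y‖ - ‖f^[m k] z - y‖) :=
            add_le_add hH (h4.trans h5)
        _ = 8 * θ / c * (‖z - y‖ - ‖z' - y‖) := by ring
    · exact ⟨z, hz, (not_le.1 hs).le, by simp⟩

/-- Lipschitz bound near the centre. -/
theorem POS_lip (ρ B : ℝ) (hρ : 0 < ρ) (H : ℂ → ℂ) (y : ℂ) (hH : DifferentiableOn ℂ H (ball y ρ)) (hB : ∀ z ∈ ball y ρ, ‖H z‖ ≤ B)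
    (z : ℂ) (hz : z ∈ ball y (ρ / 2)) : ‖H z - H y‖ ≤ B / (ρ / 4) * ‖z - y‖ := by
  have hsub : ball y (ρ / 2) ⊆ ball y ρ := ball_subset_ball (by linarith)
  refine (convex_ball y (ρ / 2)).norm_image_sub_le_of_norm_deriv_le (f := H) (C := B / (ρ / 4)) ?_ ?_
    (mem_ball_self (by positivity)) hz
  · intro x hx
    exact hH.differentiableAt (isOpen_ball.mem_nhds (hsub hx))
  · intro x hx
    have hcb : closedBall x (ρ / 4) ⊆ ball y ρ := by
      intro w hw
      rw [mem_closedBall] at hw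
      rw [mem_ball] at hx ⊢
      calc dist w y ≤ dist w x + dist x y := dist_triangle _ _ _
        _ < ρ := by linarith
    exact Complex.norm_deriv_le_of_forall_mem_sphere_norm_le (by positivity)
      (hH.diffContOnCl_ball hcb) (fun w hw => hB w (hcb (sphere_subset_closedBall hw)))

theorem POS_main (h : POS_D c θ f y r n m v) : ∀ N : ℕ, ∃ M ≥ N, DifferentiableOn ℂ (f^[M]) (ball y (r / 4)) ∧
    (∀ z ∈ ball y (r / 4), ‖f^[M] z - z‖ ≤ r / 8) ∧ ‖f^[M] y - y‖ ≤ 2 * θ * r / c := by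
  have hr := h.r0
  have hc := h.c0
  have ht := h.t0
  have ht1 := h.t1
  have hc1 := h.c1
  have ht2 : θ ≤ 1 / 128 := by linarith
  obtain ⟨a, ha, hav⟩ := POS_pos h
  intro N
  induction N with
  | zero =>
    refine ⟨0, le_refl _, differentiableOn_id, fun z _ => by simp; positivity, by simp; positivity⟩
  | succ N ih =>
    obtain ⟨M, hMN, hMd, hMz, hMy⟩ := ih
    have hyr : y ∈ ball y (r / 4) := mem_ball_self (by positivity)
    have hFr : ∀ z ∈ ball y (r / 4), f^[M] z ∈ ball y r := by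
      intro z hz
      have h1 := hMz z hz
      rw [mem_ball, dist_eq_norm] at hz ⊢
      calc ‖f^[M] z - y‖ = ‖(f^[M] z - z) + (z - y)‖ := by congr 1; ring
        _ ≤ ‖f^[M] z - z‖ + ‖z - y‖ := norm_add_le _ _
        _ < r := by linarith
    -- choice of the next return
    obtain ⟨k, hk⟩ : ∃ k, ‖f^[m k] (f^[M] y) - y‖ ≤ 2 * θ * r / c := by
      by_cases hs : θ * r / c ≤ ‖f^[M] y - y‖
      · obtain ⟨k, hk⟩ := POS_step h (f^[M] y) (hFr y hyr) hs
        refine ⟨k, hk.trans ?_⟩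
        have : 0 ≤ c / 4 * ‖v k‖ := by positivity
        linarith
      · obtain ⟨k, -⟩ := h.dir 1 (by simp)
        refine ⟨k, ?_⟩
        have h1 := h.ne k (f^[M] y) (hFr y hyr)
        have h2 := h.v1 k
        have h3 : θ * r * 2 ≤ θ * r / c := by
          rw [le_div_iff₀ hc]
          have : 0 < θ * r := by positivity
          nlinarith
        have h4 : θ * ‖v k‖ ≤ ‖v k‖ := by
          have := norm_nonneg (v k)
          nlinarith
        calc ‖f^[m k] (f^[M] y) - y‖ = ‖(f^[m k] (f^[M] y) - f^[M] y - v k) + v k + (f^[M] y - y)‖ := by congr 1; ring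
          _ ≤ ‖f^[m k] (f^[M] y) - f^[M] y - v k‖ + ‖v k‖ + ‖f^[M] y - y‖ := norm_add₃_le
          _ ≤ θ * r / c + θ * r / c := by
            have := (not_le.1 hs).le
            linarith
          _ = 2 * θ * r / c := by ring
    have hM' : ∀ z : ℂ, f^[m k + M] z = f^[m k] (f^[M] z) := fun z => Function.iterate_add_apply f (m k) M z
    have hd' : DifferentiableOn ℂ (f^[m k + M]) (ball y (r / 4)) := by
      have : f^[m k + M] = f^[m k] ∘ f^[M] := Function.iterate_add f (m k) M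
      rw [this]
      exact (h.dif k).comp hMd (fun z hz => hFr z hz)
    have hb' : ∀ z ∈ ball y (r / 4), ‖f^[m k + M] z - z‖ ≤ r / 4 := by
      intro z hz
      rw [hM']
      have h1 := h.ne k (f^[M] z) (hFr z hz)
      have h2 := h.v1 k
      have h3 := hMz z hz
      have h4 : θ * ‖v k‖ ≤ ‖v k‖ := by
        have := norm_nonneg (v k)
        nlinarith
      have h5 : θ * r ≤ 1 / 128 * r := by nlinarith
      calc ‖f^[m k] (f^[M] z) - z‖ = ‖(f^[m k] (f^[M] z) - f^[M] z - v k) + v k + (f^[M] z - z)‖ := by congr 1; ring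
        _ ≤ ‖f^[m k] (f^[M] z) - f^[M] z - v k‖ + ‖v k‖ + ‖f^[M] z - z‖ := norm_add₃_le
        _ ≤ r / 4 := by linarith
    have hy' : ‖f^[m k + M] y - y‖ ≤ 2 * θ * r / c := by rw [hM']; exact hk
    refine ⟨m k + M, by have := h.m1 k; omega, hd', ?_, hy'⟩
    intro z hz
    -- walk
    obtain ⟨K, hK⟩ := exists_nat_gt ((r / 4) / (c / 4 * a))
    have hKz : ‖z - y‖ ≤ θ * r / c + K * (c / 4 * a) := by
      have h1 : r / 4 < K * (c / 4 * a) := by
        rwa [div_lt_iff₀ (by positivity)] at hK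
      rw [mem_ball, dist_eq_norm] at hz
      have : 0 < θ * r / c := by positivity
      linarith
    obtain ⟨z', hz', hzy', hH⟩ := POS_walk h (m k + M) hb' a ha hav K z hz hKz
    have hs0 : θ * r / c ≤ r / 64 := by
      rw [div_le_iff₀ hc]
      nlinarith
    have hz'2 : z' ∈ ball y (r / 4 / 2) := by
      rw [mem_ball, dist_eq_norm]; linarith
    have hlip := POS_lip (r / 4) (r / 4) (by positivity) (fun w => f^[m k + M] w - w) y
      (hd'.sub differentiableOn_id) hb' z' hz'2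
    have hlip2 : r / 4 / (r / 4 / 4) * ‖z' - y‖ ≤ 4 * (θ * r / c) := by
      have : r / 4 / (r / 4 / 4) = 4 := by field_simp
      rw [this]; linarith
    have hw : 8 * θ / c * (‖z - y‖ - ‖z' - y‖) ≤ 2 * (θ * r / c) := by
      rw [mem_ball, dist_eq_norm] at hz
      have h1 : ‖z - y‖ - ‖z' - y‖ ≤ r / 4 := by
        have := norm_nonneg (z' - y)
        linarith
      calc 8 * θ / c * (‖z - y‖ - ‖z' - y‖) ≤ 8 * θ / c * (r / 4) := mul_le_mul_of_nonneg_left h1 (by positivity)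
        _ = 2 * (θ * r / c) := by ring
    have hfin : ‖f^[m k + M] z - z‖ ≤ 8 * (θ * r / c) := by
      calc ‖f^[m k + M] z - z‖
          = ‖(f^[m k + M] y - y) + ((f^[m k + M] z' - z') - (f^[m k + M] y - y)) - ((f^[m k + M] z' - z') - (f^[m k + M] z - z))‖ := by
            congr 1; ring
        _ ≤ ‖(f^[m k + M] y - y) + ((f^[m k + M] z' - z') - (f^[m k + M] y - y))‖ + ‖(f^[m k + M] z' - z') - (f^[m k + M] z - z)‖ :=
            norm_sub_le _ _
        _ ≤ ‖f^[m k + M] y - y‖ + ‖(f^[m k + M] z' - z') - (f^[m k + M] y - y)‖ + ‖(f^[m k + M] z' - z') - (f^[m k + M] z - z)‖ := by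
            gcongr; exact norm_add_le _ _
        _ ≤ 2 * (θ * r / c) + 4 * (θ * r / c) + 2 * (θ * r / c) := by
            have e1 : 2 * θ * r / c = 2 * (θ * r / c) := by ring
            rw [e1] at hy'
            exact add_le_add (add_le_add hy' (hlip.trans hlip2)) (hH.trans hw)
        _ = 8 * (θ * r / c) := by ring
    linarith

theorem POS : POS_stmt := by
  intro c hc
  obtain ⟨c', hc'⟩ : ∃ c', c' = min c (1 / 2) := ⟨_, rfl⟩
  have h0 : 0 < c' := by rw [hc']; exact lt_min hc (by norm_num)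
  have h1 : c' ≤ 1 / 2 := by rw [hc']; exact min_le_right _ _
  have h2 : c' ≤ c := by rw [hc']; exact min_le_left _ _
  refine ⟨c' / 64, by positivity, ?_⟩
  intro f y r hr n m v hm hv hd hg hdir N
  have h : POS_D c' (c' / 64) f y r n m v :=
    { c0 := h0
      c1 := h1
      t0 := by positivity
      t1 := by linarith
      r0 := hr
      m1 := hm
      v0 := fun k => (hv k).1
      v1 := fun k => (hv k).2
      dif := hd
      ne := hg
      dir := by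
        intro e he
        obtain ⟨k, hk⟩ := hdir e he
        refine ⟨k, hk.trans ?_⟩
        have := norm_nonneg (v k)
        nlinarith }
  obtain ⟨M, hM, hMd, hMz, -⟩ := POS_main h N
  exact ⟨M, hM, hMd, hMz⟩

end R2
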